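import Pool.Agent.Mg.F32357ep.G7198e3
import Pool.Agent.Mg.F32357ep.G8008cf

set_option autoImplicit false

open Set Filter Topology Metric

namespace Pool.Agent.Results.MP_32357e_an.GrowthScale

theorem result : ∃ c : ℝ, 0 < c ∧ ∀ ω : ℝ → ℝ, MonotoneOn ω (Ico 0 1) →
    AntitoneOn (fun t => (1 - t) * ω t) (Ico 0 1) → Tendsto ω (𝓝[<] 1) atTop →
    Tendsto (fun t => (1 - t) * ω t) (𝓝[<] 1) (𝓝 0) →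
    ∀ f₀ : ℂ → ℂ, DifferentiableOn ℂ f₀ (ball 0 1) → InjOn f₀ (ball 0 1) →
    ∀ r η : ℝ, r < 1 → 0 < η → ∃ f F : ℂ → ℂ,
      DifferentiableOn ℂ f (ball 0 1) ∧ InjOn f (ball 0 1) ∧ F 0 = 0 ∧
      (∀ z ∈ ball (0 : ℂ) 1, HasDerivAt F (f z) z) ∧
      (∀ z : ℂ, ‖z‖ ≤ r → ‖f z - f₀ z‖ ≤ η) ∧
      (∃ R : ℝ, R < 1 ∧ ∀ z : ℂ, R < ‖z‖ → ‖z‖ < 1 → (1 - ‖z‖) * ‖f z‖ ≤ ω ‖z‖) ∧
      ∀ R : ℝ, R < 1 → ∃ z : ℂ, R < ‖z‖ ∧ ‖z‖ < 1 ∧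
        c * ω ‖z‖ ≤ (1 - ‖z‖) * ‖f z‖ / (1 + ‖F z‖ ^ 2) := by
  obtain ⟨c, hc, h⟩ := Pool.Agent.MP_32357e_an.H.stepNU
  exact ⟨c / 4, by positivity, fun ω h1 h2 h3 h4 =>
    Pool.Agent.MP_32357e_an.H.partU hc (Pool.Agent.MP_32357e_an.H.stepU h) ω ⟨h1, h2, h3, h4⟩⟩

end Pool.Agent.Results.MP_32357e_an.GrowthScale
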