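import Pool.Agent.Mg.F32357ea.Gbf5b88
import Pool.Agent.Mg.F32357ea.G55a923

set_option autoImplicit false

open Set Metric

namespace Pool.Agent.Results.MP_32357e_an.SectorThreshold

theorem result : ∀ c : ℂ, ‖c - 1‖ ≤ 1 →
    ((∀ (f F : ℂ → ℂ) (a b : ℂ), DifferentiableOn ℂ f (ball 0 1) → InjOn f (ball 0 1) →
        (∀ z ∈ ball (0 : ℂ) 1, ∃ w : ℂ, 0 < w.re ∧ f z = a + b * w ^ c) → F 0 = 0 →
        (∀ z ∈ ball (0 : ℂ) 1, HasDerivAt F (f z) z) →
        ∃ C : ℝ, ∀ z ∈ ball (0 : ℂ) 1, (1 - ‖z‖ ^ 2) * ‖f z‖ / (1 + ‖F z‖ ^ 2) ≤ C) ↔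
      (c.re ≤ 1 ∨ (c.im = 0 ∧ c.re < 2))) := by
  intro c hc
  constructor
  · intro h
    by_contra hn
    have h1 : 1 < c.re := not_le.mp fun h => hn (Or.inl h)
    by_cases hi : c.im = 0
    · have h2 : 2 ≤ c.re := not_lt.mp fun h => hn (Or.inr ⟨hi, h⟩)
      have h3 : (c - 1).re ≤ 1 := (Complex.re_le_norm _).trans hc
      have h4 : c = 2 := by
        apply Complex.ext
        · simp only [Complex.sub_re, Complex.one_re] at h3
          simp only [Complex.re_ofNat]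
          linarith
        · simpa using hi
      obtain ⟨f, F, a1, a2, a3, a4, a5, a6⟩ := Pool.Agent.MP_32357e_an.Sec.slit_pf
      exact a6 (h f F 0 1 a1 a2 (by simpa [h4] using a3) a4 a5)
    · obtain ⟨f, F, a1, a2, a3, a4, a5, a6⟩ := Pool.Agent.MP_32357e_an.Sec.spir_pf c hc h1 hi
      exact a6 (h f F 0 1 a1 a2 (by simpa using a3) a4 a5)
  · intro h f F a b a1 _ a3 a4 a5
    exact Pool.Agent.MP_32357e_an.Sec.pos_pf Pool.Agent.MP_32357e_an.Sec.lift_pf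
      Pool.Agent.MP_32357e_an.Sec.grow_pf
      (Pool.Agent.MP_32357e_an.Sec.real_pf Pool.Agent.MP_32357e_an.Sec.ker_pf
        Pool.Agent.MP_32357e_an.Sec.grow_pf Pool.Agent.MP_32357e_an.Sec.prim_pf)
      c hc h f F a b a1 a3 a4 a5

end Pool.Agent.Results.MP_32357e_an.SectorThreshold
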